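import Mathlib
import Pool.Agent.Lib.MP_64e474_co.Defs
import Pool.Agent.Lib.MP_64e474_co.Warm
import Pool.Agent.Lib.MP_64e474_co.Final

/-!
A finite simple graph whose warmth exceeds the connectivity of its neighborhood complex by at
least four.  The witness is the folded halved 10-cube (a strongly regular graph with parameters
(256, 45, 16, 6)): it is 4-warm, while the neighborhood complex of the halved 10-cube is a
connected double cover of its neighborhood complex, which therefore is path connected but not
simply connected.
-/

set_option autoImplicit false

open Pool.Agent.Lib.MP_64e474_co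

/-- There is a finite simple graph `G` with at least one edge such that
`conn[N(G)] = 0` and `conn[N(G)] + 4 ≤ w(G)`. -/
theorem Pool.Agent.Results.MP_64e474_co.WarmthCounterexample.result :
    ∃ (V : Type) (_ : Fintype V) (G : SimpleGraph V),
      (∃ x y, G.Adj x y) ∧
      conn (realization (nbhdComplex G)) = 0 ∧
      conn (realization (nbhdComplex G)) + 4 ≤ warmth G := by
  refine ⟨BitVec 8, inferInstance, H, ?_, conn_eq_zero, ?_⟩
  · obtain ⟨y, h, _⟩ := H_com 0#8 0#8
    exact ⟨y, 0#8, h⟩
  · rw [conn_eq_zero, zero_add]
    exact four_le_warmth
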